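import Mathlib
import Pool.Agent.Helper78.MG.Goals

/-!
# MG-SUB: small subcovers
-/

namespace Pool.Agent.Helper9.MG

open Pool.Agent.Helper78.MG Pool.Agent.Helper78.DT
open scoped Classical

/-- Each set of the list has probability at least `2 ^ (-k)` outside the earlier ones. -/
def Good {m n : ℕ} (k : ℕ) (S : Fin n → Set (Fin m → Bool)) : Prop :=
  ∀ i, 1 ≤ 2 ^ k * pr (Fst S i)

theorem half_le {x : ℝ} (hx : 1 ≤ x) : 1 / 2 ≤ x / (1 + x) := by
  rw [div_le_div_iff₀ (by norm_num) (by linarith)]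
  linarith

theorem good_len (hkey : KeyStmt) {m n M D : ℕ} {k : ℕ} {z : Fin M → (Fin m → Bool) → ZMod 2}
    {S : Fin n → Set (Fin m → Bool)} (hS : ∀ i, LowDegree D z (S i)) (hg : Good k S) :
    n ≤ 2 * (M * bin k D) := by
  have h := hkey m M D k n z S hS
  have h2 : ∑ _i : Fin n, (1 / 2 : ℝ) ≤
      ∑ i, 2 ^ k * pr (Fst S i) / (1 + 2 ^ k * pr (Fst S i)) :=
    Finset.sum_le_sum fun i _ => half_le (hg i)
  rw [Finset.sum_const, Finset.card_univ, Fintype.card_fin, nsmul_eq_mul] at h2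
  have h3 : (n : ℝ) ≤ ((2 * (M * bin k D) : ℕ) : ℝ) := by
    push_cast
    linarith
  exact_mod_cast h3

theorem fst_snoc_castSucc {m n : ℕ} (S : Fin n → Set (Fin m → Bool)) (T : Set (Fin m → Bool))
    (i : Fin n) (r : Fin m → Bool) :
    Fst (Fin.snoc (α := fun _ => Set (Fin m → Bool)) S T) i.castSucc r ↔ Fst S i r := by
  unfold Fst
  rw [Fin.snoc_castSucc]
  refine and_congr_right fun _ => ⟨fun h j hj => ?_, fun h j hj => ?_⟩
  · have := h j.castSucc (by simpa using hj)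
    rwa [Fin.snoc_castSucc] at this
  · have hjn : (j : ℕ) < n := lt_trans (by simpa [Fin.lt_def] using hj) i.2
    have hj' : j = (⟨j, hjn⟩ : Fin n).castSucc := by
      ext
      rfl
    rw [hj', Fin.snoc_castSucc]
    refine h _ ?_
    rw [Fin.lt_def]
    exact hj

theorem fst_snoc_last {m n : ℕ} (S : Fin n → Set (Fin m → Bool)) (T : Set (Fin m → Bool))
    (r : Fin m → Bool) :
    Fst (Fin.snoc (α := fun _ => Set (Fin m → Bool)) S T) (Fin.last n) r ↔
      r ∈ T ∧ ∀ j, r ∉ S j := by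
  unfold Fst
  rw [Fin.snoc_last]
  refine and_congr_right fun _ => ⟨fun h j => ?_, fun h j hj => ?_⟩
  · have := h j.castSucc (Fin.castSucc_lt_last j)
    rwa [Fin.snoc_castSucc] at this
  · have hjn : (j : ℕ) < n := by simpa [Fin.lt_def] using hj
    have hj' : j = (⟨j, hjn⟩ : Fin n).castSucc := by
      ext
      rfl
    rw [hj', Fin.snoc_castSucc]
    exact h _

theorem min_le {x q : ℝ} (hx : 0 ≤ x) (h1 : q ≤ x) (h2 : q ≤ 1) : q ≤ 2 * (x / (1 + x)) := by
  rw [mul_div_assoc', le_div_iff₀ (by linarith)]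
  rcases le_total x 1 with h | h
  · nlinarith
  · nlinarith

/-- **SUB.** Small subcovers. -/
theorem sub (hkey : KeyStmt) : SubStmt := by
  intro m M D k z F hF
  set B : ℕ := M * bin k D with hB
  -- a good list of maximal length
  let P : ℕ → Prop := fun n => ∃ S : Fin n → Set (Fin m → Bool), (∀ i, S i ∈ F) ∧ Good k S
  have hP0 : P 0 := ⟨Fin.elim0, fun i => i.elim0, fun i => i.elim0⟩
  have hPb : ∀ n, P n → n ≤ 2 * B := fun n ⟨S, hS, hg⟩ =>
    good_len hkey (fun i => hF _ (hS i)) hg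
  obtain ⟨n, ⟨S, hS, hg⟩, hmax⟩ : ∃ n, P n ∧ ¬ P (n + 1) := by
    refine ⟨Nat.findGreatest P (2 * B), Nat.findGreatest_spec (Nat.zero_le _) hP0, fun h => ?_⟩
    have := Nat.le_findGreatest (hPb _ h) h
    omega
  have hsmall : ∀ T ∈ F, 2 ^ k * pr (fun r => r ∈ T ∧ ∀ j, r ∉ S j) < 1 := by
    intro T hT
    by_contra hc
    rw [not_lt] at hc
    refine hmax ⟨Fin.snoc (α := fun _ => Set (Fin m → Bool)) S T, fun i => ?_, fun i => ?_⟩
    · refine Fin.lastCases ?_ (fun j => ?_) i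
      · rw [Fin.snoc_last]
        exact hT
      · rw [Fin.snoc_castSucc]
        exact hS j
    · refine Fin.lastCases ?_ (fun j => ?_) i
      · rw [pr_congr (fst_snoc_last S T)]
        exact hc
      · rw [pr_congr (fst_snoc_castSucc S T j)]
        exact hg j
  refine ⟨List.ofFn S, ?_, ?_, ?_⟩
  · intro T hT
    rw [List.mem_ofFn] at hT
    obtain ⟨i, rfl⟩ := hT
    exact hS i
  · rw [List.length_ofFn]
    exact hPb n ⟨S, hS, hg⟩
  · -- the rest
    obtain ⟨N, ⟨e⟩⟩ : ∃ N, Nonempty (Fin N ≃ F) := by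
      have : Finite F := Set.toFinite F
      exact ⟨Nat.card F, ⟨(Finite.equivFin F).symm⟩⟩
    let G : Fin N → Set (Fin m → Bool) := fun i => (e i).1
    have hG : ∀ i, G i ∈ F := fun i => (e i).2
    have hk := hkey m M D k N z G fun i => hF _ (hG i)
    have h2k : (0 : ℝ) < 2 ^ k := by positivity
    have h1 : pr (fun r => (∃ T ∈ F, r ∈ T) ∧ ∀ T ∈ List.ofFn S, r ∉ T) ≤
        pr (fun r => ∃ i ∈ (Finset.univ : Finset (Fin N)), Fst G i r ∧ ∀ j, r ∉ S j) := by
      refine pr_mono fun r ⟨⟨T, hT, hr⟩, h⟩ => ?_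
      have hex : ∃ i : ℕ, ∃ h : i < N, r ∈ G ⟨i, h⟩ := by
        refine ⟨(e.symm ⟨T, hT⟩).1, (e.symm ⟨T, hT⟩).2, ?_⟩
        simpa [G] using hr
      refine ⟨⟨Nat.find hex, (Nat.find_spec hex).1⟩, Finset.mem_univ _,
        ⟨(Nat.find_spec hex).2, fun j hj hjr => ?_⟩, fun j => h _ ?_⟩
      · exact Nat.find_min hex (by simpa [Fin.lt_def] using hj) ⟨j.2, hjr⟩
      · rw [List.mem_ofFn]
        exact ⟨j, rfl⟩
    have h2 : ∀ i, 2 ^ k * pr (fun r => Fst G i r ∧ ∀ j, r ∉ S j) ≤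
        2 * (2 ^ k * pr (Fst G i) / (1 + 2 ^ k * pr (Fst G i))) := by
      intro i
      refine min_le (by have := pr_nonneg (Fst G i); positivity) ?_ ?_
      · exact mul_le_mul_of_nonneg_left (pr_mono fun r h => h.1) h2k.le
      · refine le_trans (mul_le_mul_of_nonneg_left (pr_mono fun r h => ?_) h2k.le)
          (hsmall _ (hG i)).le
        exact ⟨h.1.1, h.2⟩
    have h3 : 2 ^ k * ∑ i, pr (fun r => Fst G i r ∧ ∀ j, r ∉ S j) ≤ 2 * (B : ℝ) := by
      rw [Finset.mul_sum]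
      refine (Finset.sum_le_sum fun i _ => h2 i).trans ?_
      rw [← Finset.mul_sum]
      have : ((B : ℕ) : ℝ) = (M : ℝ) * (bin k D : ℝ) := by
        rw [hB]
        push_cast
        ring
      rw [this]
      linarith
    refine (h1.trans (pr_exists_le _ _)).trans ?_
    rw [le_div_iff₀ h2k, mul_comm]
    exact h3

end Pool.Agent.Helper9.MG
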